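import Pool.Agent.Helper14.TK7.StD

/-!
# Project TK7, module Sur: solving the inhomogeneous equation
-/

set_option autoImplicit false

namespace Pool.Agent.Helper53.TK7

open Pool.Agent.Helper14.TK7 Pool.Agent.Helper84.S7
open Pool.Agent.Helper4.S7 (pj S7Pj)

private theorem decomp_Sur (hLow0 : S7Low0) (hBb : S7Bb) (r s : ℕ) (e : ℤ) (E : Fn7 (7 ^ r) (7 ^ s))
    (he : e < 7 ^ r + 7 ^ s - 2) (hE : E ∈ Wd7 e) :
    ∃ U V : Fn7 (7 ^ r) (7 ^ s), U ∈ Wd7 (e + 1) ∧ V ∈ Wd7 (e + 1) ∧ dX U + dY V = E := by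
  obtain ⟨_, _, _, _, hmono, _⟩ := hLow0 r s
  obtain ⟨h1, h2, h3, _, _, h6⟩ := hBb r s
  set c : ℕ → ℕ → ZMod 7 := fun i j =>
    ((dX ^ i * dY ^ j : Module.End (ZMod 7) (Fn7 (7 ^ r) (7 ^ s))) E) 0 0 with hc
  have hc0 : ∀ i j : ℕ, e < (i : ℤ) + j → c i j = 0 := by
    intro i j hij
    have : ((dX ^ i * dY ^ j : Module.End (ZMod 7) (Fn7 (7 ^ r) (7 ^ s))) E) = 0 := hE i j hij
    rw [hc]
    simp only [this]
    rfl
  have hj : ∀ i j : ℕ, i < 7 ^ r → (i : ℤ) + j ≤ e → ¬ (i + 1 < 7 ^ r) → j + 1 < 7 ^ s := by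
    intro i j hi hij hi1
    have h7 : i + 1 = 7 ^ r := by omega
    have h8 : (i : ℤ) + 1 = 7 ^ r := by exact_mod_cast h7
    have h9 : (j : ℤ) + 1 < 7 ^ s := by linarith
    exact_mod_cast h9
  refine ⟨∑ i ∈ Finset.range (7 ^ r), ∑ j ∈ Finset.range (7 ^ s),
      (if i + 1 < 7 ^ r then c i j • bb7 (i + 1) j else 0),
    ∑ i ∈ Finset.range (7 ^ r), ∑ j ∈ Finset.range (7 ^ s),
      (if i + 1 < 7 ^ r then 0 else c i j • bb7 i (j + 1)), ?_, ?_, ?_⟩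
  · refine Submodule.sum_mem _ fun i hi => Submodule.sum_mem _ fun j hj => ?_
    rw [Finset.mem_range] at hi hj
    split_ifs with h
    · by_cases hij : (i : ℤ) + j ≤ e
      · refine Submodule.smul_mem _ _ (hmono _ _ ?_ (h1 (i + 1) j h hj))
        push_cast
        linarith
      · rw [hc0 i j (not_le.1 hij), zero_smul]
        exact Submodule.zero_mem _
    · exact Submodule.zero_mem _
  · refine Submodule.sum_mem _ fun i hi => Submodule.sum_mem _ fun j _ => ?_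
    rw [Finset.mem_range] at hi
    split_ifs with h
    · exact Submodule.zero_mem _
    · by_cases hij : (i : ℤ) + j ≤ e
      · refine Submodule.smul_mem _ _ (hmono _ _ ?_ (h1 i (j + 1) hi (hj i j hi hij h)))
        push_cast
        linarith
      · rw [hc0 i j (not_le.1 hij), zero_smul]
        exact Submodule.zero_mem _
  · refine Eq.trans ?_ (h6 E).symm
    rw [map_sum, map_sum, ← Finset.sum_add_distrib]
    refine Finset.sum_congr rfl fun i hi => ?_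
    rw [map_sum, map_sum, ← Finset.sum_add_distrib]
    refine Finset.sum_congr rfl fun j hj' => ?_
    rw [Finset.mem_range] at hi hj'
    have hcc : ((dX ^ i * dY ^ j : Module.End (ZMod 7) (Fn7 (7 ^ r) (7 ^ s))) E) 0 0 = c i j := rfl
    rw [hcc]
    by_cases h : i + 1 < 7 ^ r
    · rw [if_pos h, if_pos h, map_smul, map_zero, add_zero, h2 i j h hj']
    · rw [if_neg h, if_neg h, map_smul, map_zero, zero_add]
      by_cases hij : (i : ℤ) + j ≤ e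
      · rw [h3 i j hi (hj i j hi hij h)]
      · rw [hc0 i j (not_le.1 hij), zero_smul, zero_smul]

/-- The equation with operators. -/
private theorem DfK_op (r s : ℕ) (u : Fin 5 → Fn7 (7 ^ r) (7 ^ s)) :
    (DfK u : Fn7 (7 ^ r) (7 ^ s)) = u 0 - op7 1 1 0 1 (u 0) - (u 1 - op7 6 (-1) 3 (-3) (u 1)) -
      (u 2 - op7 9 (-4) 3 (-9) (u 2)) - (u 3 - op7 12 (-7) 3 (-12) (u 3)) -
      (u 4 - op7 18 (-13) 3 (-15) (u 4)) := rfl

/-- The algebra of one step. -/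
private theorem alg_Sur {M : Type} [AddCommGroup M] [Module (ZMod 7) M] (W : Submodule (ZMod 7) M)
    (D XP Q X Y O5Q O5X O5Y O3Q O3X O3Y : M)
    (h : D + -XP + ((5 : ZMod 7) • Q - ((5 : ZMod 7) • O5Q + (5 : ZMod 7) • O5X +
      (6 : ZMod 7) • ((5 : ZMod 7) • O5Y))) + ((3 : ZMod 7) • Q - ((3 : ZMod 7) • O3Q +
      (5 : ZMod 7) • ((3 : ZMod 7) • O3X) + (2 : ZMod 7) • ((3 : ZMod 7) • O3Y))) ∈ W)
    (k1 : O5Q - (5 : ZMod 7) • Q ∈ W) (k2 : O3Q - (-1 : ZMod 7) • Q ∈ W)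
    (k3 : O5X - (4 : ZMod 7) • X ∈ W) (k4 : O3X - (1 : ZMod 7) • X ∈ W)
    (k5 : O5Y - (1 : ZMod 7) • Y ∈ W) (k6 : O3Y - (1 : ZMod 7) • Y ∈ W) :
    D - (XP + Y) ∈ W := by
  have h6 : (8 - 1 : ZMod 7) = 0 := by decide
  have h8 : D - (XP + Y) = (D + -XP + ((5 : ZMod 7) • Q - ((5 : ZMod 7) • O5Q + (5 : ZMod 7) • O5X +
      (6 : ZMod 7) • ((5 : ZMod 7) • O5Y))) + ((3 : ZMod 7) • Q - ((3 : ZMod 7) • O3Q +
      (5 : ZMod 7) • ((3 : ZMod 7) • O3X) + (2 : ZMod 7) • ((3 : ZMod 7) • O3Y)))) +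
      (5 : ZMod 7) • (O5Q - (5 : ZMod 7) • Q) + (3 : ZMod 7) • (O3Q - (-1 : ZMod 7) • Q) +
      (5 : ZMod 7) • (O5X - (4 : ZMod 7) • X) + (15 : ZMod 7) • (O3X - (1 : ZMod 7) • X) +
      (30 : ZMod 7) • (O5Y - (1 : ZMod 7) • Y) + (6 : ZMod 7) • (O3Y - (1 : ZMod 7) • Y) +
      (8 - 1 : ZMod 7) • ((2 : ZMod 7) • Q + (5 : ZMod 7) • X + (5 : ZMod 7) • Y) := by
    module
  rw [h8, h6, zero_smul, add_zero]
  exact W.add_mem (W.add_mem (W.add_mem (W.add_mem (W.add_mem (W.add_mem h (W.smul_mem _ k1))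
    (W.smul_mem _ k2)) (W.smul_mem _ k3)) (W.smul_mem _ k4)) (W.smul_mem _ k5)) (W.smul_mem _ k6)

/-- One step of the induction. -/
private theorem step_Sur (hLow0 : S7Low0) (hNfa : S7Nfa) (hPj : S7Pj) (hBb : S7Bb) (hSta : TSta) (hLwd : TLwd)
    (r s : ℕ) (e : ℤ) (E : Fn7 (7 ^ r) (7 ^ s)) (he : e < 7 ^ r + 7 ^ s - 2) (hE : E ∈ Wd7 e) :
    ∃ u : Fin 5 → Fn7 (7 ^ r) (7 ^ s), (∀ f, u f ∈ Wd7 (e + 1)) ∧
      E - (DfK u : Fn7 (7 ^ r) (7 ^ s)) ∈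
        (Wd7 (e - 1) : Submodule (ZMod 7) (Fn7 (7 ^ r) (7 ^ s))) := by
  obtain ⟨_, _, _, _, hmono, _, hdX, hdY, _⟩ := hLow0 r s
  obtain ⟨hp0, _, hp6, hpw, hpp, hpd, _⟩ := hPj r s
  have hW := (hNfa r s).1
  obtain ⟨P, Q, hP, hQ, hPQ⟩ := decomp_Sur hLow0 hBb r s e E he hE
  -- projections and `oW w` preserve degrees
  have hp : ∀ (c : ℕ) (d : ℤ) (F : Fn7 (7 ^ r) (7 ^ s)), F ∈ Wd7 d → pj c F ∈ Wd7 d := by
    intro c d F hF
    have := hp0 c d F hF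
    rwa [sub_zero] at this
  have hw : ∀ (w : Fin 6) (d : ℤ) (F : Fn7 (7 ^ r) (7 ^ s)), F ∈ Wd7 d → oW w F ∈ Wd7 d := by
    intro w d F hF
    have := hW w d F hF
    rwa [sub_zero] at this
  have hx : ∀ F : Fn7 (7 ^ r) (7 ^ s), F ∈ Wd7 (e + 1) → dX F ∈ Wd7 e := by
    intro F hF
    have := hdX _ F hF
    rwa [add_sub_cancel_right] at this
  have hy : ∀ F : Fn7 (7 ^ r) (7 ^ s), F ∈ Wd7 (e + 1) → dY F ∈ Wd7 e := by
    intro F hF
    have := hdY _ F hF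
    rwa [add_sub_cancel_right] at this
  -- commutation of projections and differences
  have hcx : ∀ (c : ℕ) (F : Fn7 (7 ^ r) (7 ^ s)), F ∈ Wd7 (e + 1) →
      pj c (dX F) - dX (pj (c + 1) F) ∈
        (Wd7 (e - 1) : Submodule (ZMod 7) (Fn7 (7 ^ r) (7 ^ s))) := by
    intro c F hF
    exact hmono _ _ (by linarith) ((hpd c).1 _ F hF)
  have hcy : ∀ (c : ℕ) (F : Fn7 (7 ^ r) (7 ^ s)), F ∈ Wd7 (e + 1) →
      pj c (dY F) - dY (pj (c + 5) F) ∈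
        (Wd7 (e - 1) : Submodule (ZMod 7) (Fn7 (7 ^ r) (7 ^ s))) := by
    intro c F hF
    exact hmono _ _ (by linarith) ((hpd c).2 _ F hF)
  -- `oW w` on a class
  have hk : ∀ (w : Fin 6) (c : ℕ) (m : ZMod 7) (F F' : Fn7 (7 ^ r) (7 ^ s)),
      (((om6 w) ^ c : ℤ) : ZMod 7) = m → F ∈ Wd7 e →
      pj c F - F' ∈ (Wd7 (e - 1) : Submodule (ZMod 7) (Fn7 (7 ^ r) (7 ^ s))) →
      oW w F' - m • F' ∈ (Wd7 (e - 1) : Submodule (ZMod 7) (Fn7 (7 ^ r) (7 ^ s))) := by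
    intro w c m F F' hm hF h
    have h1 := hmono _ (e - 1) (by linarith) ((hpw c w).2 e F hF)
    rw [hm] at h1
    have h1' : oW w (pj c F) - m • pj c F ∈
        (Wd7 (e - 1) : Submodule (ZMod 7) (Fn7 (7 ^ r) (7 ^ s))) := h1
    have h2 := hw w _ _ h
    have h3 : oW w F' - m • F' = (oW w (pj c F) - m • pj c F) - oW w (pj c F - F') +
        m • (pj c F - F') := by
      rw [map_sub, smul_sub]
      abel
    rw [h3]
    exact Submodule.add_mem _ (Submodule.sub_mem _ h1' h2) (Submodule.smul_mem _ _ h)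
  -- the functions
  obtain ⟨P', hP'⟩ : ∃ P' : Fn7 (7 ^ r) (7 ^ s), P' = pj 1 P := ⟨_, rfl⟩
  obtain ⟨Q', hQ'⟩ : ∃ Q' : Fn7 (7 ^ r) (7 ^ s), Q' = pj 5 Q := ⟨_, rfl⟩
  have hP'm : P' ∈ Wd7 (e + 1) := by
    rw [hP']; exact hp 1 _ _ hP
  have hQ'm : Q' ∈ Wd7 (e + 1) := by
    rw [hQ']; exact hp 5 _ _ hQ
  have cX : pj 4 (dX Q) - dX Q' ∈ (Wd7 (e - 1) : Submodule (ZMod 7) (Fn7 (7 ^ r) (7 ^ s))) := by
    rw [hQ']
    exact hcx 4 Q hQ
  have cY : pj 0 (dY Q) - dY Q' ∈ (Wd7 (e - 1) : Submodule (ZMod 7) (Fn7 (7 ^ r) (7 ^ s))) := by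
    rw [hQ']
    exact hcy 0 Q hQ
  have kQ : ∀ (w : Fin 6) (m : ZMod 7), (((om6 w) ^ 5 : ℤ) : ZMod 7) = m →
      oW w Q' - m • Q' ∈ (Wd7 (e - 1) : Submodule (ZMod 7) (Fn7 (7 ^ r) (7 ^ s))) := by
    intro w m hm
    have h1 := hmono _ (e - 1) (by linarith) ((hpw 5 w).2 (e + 1) Q hQ)
    rw [hm] at h1
    rw [hQ']
    exact h1
  -- the equation
  obtain ⟨D, hD⟩ : ∃ D : Fn7 (7 ^ r) (7 ^ s),
      D = DfK ![-P', (5 : ZMod 7) • Q', (3 : ZMod 7) • Q', 0, 0] := ⟨_, rfl⟩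
  have g1 : D - (dX P' + dY Q') ∈
      (Wd7 (e - 1) : Submodule (ZMod 7) (Fn7 (7 ^ r) (7 ^ s))) := by
    have h9 := hLwd r s (e + 1) ![-P', (5 : ZMod 7) • Q', (3 : ZMod 7) • Q', 0, 0] (by
      intro f
      fin_cases f
      · exact Submodule.neg_mem _ hP'm
      · exact Submodule.smul_mem _ _ hQ'm
      · exact Submodule.smul_mem _ _ hQ'm
      · exact Submodule.zero_mem _
      · exact Submodule.zero_mem _)
    rw [← hD] at h9
    have e0 : (![-P', (5 : ZMod 7) • Q', (3 : ZMod 7) • Q', 0, 0] : Fin 5 → Fn7 (7 ^ r) (7 ^ s)) 0 =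
      -P' := rfl
    have e1 : (![-P', (5 : ZMod 7) • Q', (3 : ZMod 7) • Q', 0, 0] : Fin 5 → Fn7 (7 ^ r) (7 ^ s)) 1 =
      (5 : ZMod 7) • Q' := rfl
    have e2 : (![-P', (5 : ZMod 7) • Q', (3 : ZMod 7) • Q', 0, 0] : Fin 5 → Fn7 (7 ^ r) (7 ^ s)) 2 =
      (3 : ZMod 7) • Q' := rfl
    have e3 : (![-P', (5 : ZMod 7) • Q', (3 : ZMod 7) • Q', 0, 0] : Fin 5 → Fn7 (7 ^ r) (7 ^ s)) 3 =
      0 := rfl
    have e4 : (![-P', (5 : ZMod 7) • Q', (3 : ZMod 7) • Q', 0, 0] : Fin 5 → Fn7 (7 ^ r) (7 ^ s)) 4 =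
      0 := rfl
    rw [e0, e1, e2, e3, e4] at h9
    have h11 : e + 1 - 2 = e - 1 := by ring
    rw [h11] at h9
    simp only [map_zero, smul_zero, add_zero, sub_zero, map_add, map_smul, map_neg] at h9
    exact alg_Sur _ D (dX P') Q' (dX Q') (dY Q') _ _ _ _ _ _ h9 (kQ 5 5 (by decide))
      (kQ 3 (-1) (by decide)) (hk 5 4 4 _ _ (by decide) (hx _ hQ) cX)
      (hk 3 4 1 _ _ (by decide) (hx _ hQ) cX) (hk 5 0 1 _ _ (by decide) (hy _ hQ) cY)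
      (hk 3 0 1 _ _ (by decide) (hy _ hQ) cY)
  -- the class 0
  have g2 : pj 0 E - (dX P' + dY Q') ∈
      (Wd7 (e - 1) : Submodule (ZMod 7) (Fn7 (7 ^ r) (7 ^ s))) := by
    have h9 := hcx 0 P hP
    have h12 : pj 0 E - (dX P' + dY Q') =
        (pj 0 (dX P) - dX (pj (0 + 1) P)) + (pj 0 (dY Q) - dY Q') := by
      rw [← hPQ, hP', map_add (pj 0)]
      abel
    rw [h12]
    exact Submodule.add_mem _ h9 cY
  -- the error
  obtain ⟨R, hRdef⟩ : ∃ R : Fn7 (7 ^ r) (7 ^ s), R = E - D := ⟨_, rfl⟩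
  have hR : R - (E - pj 0 E) ∈ (Wd7 (e - 1) : Submodule (ZMod 7) (Fn7 (7 ^ r) (7 ^ s))) := by
    have h1 : R - (E - pj 0 E) = (pj 0 E - (dX P' + dY Q')) - (D - (dX P' + dY Q')) := by
      rw [hRdef]
      abel
    rw [h1]
    exact Submodule.sub_mem _ g2 g1
  have hRe : R = (R - (E - pj 0 E)) + (E - pj 0 E) := by abel
  have hR0 : pj 0 R ∈ (Wd7 (e - 1) : Submodule (ZMod 7) (Fn7 (7 ^ r) (7 ^ s))) := by
    rw [hRe, map_add (pj 0), map_sub (pj 0) E]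
    have h9 := hpp 0 0 (by norm_num) (by norm_num) _ E hE
    rw [if_pos rfl] at h9
    have h9' : pj 0 (pj 0 E) - pj 0 E ∈
        (Wd7 (e - 1) : Submodule (ZMod 7) (Fn7 (7 ^ r) (7 ^ s))) := hmono _ _ (by linarith) h9
    refine Submodule.add_mem _ (hp 0 _ _ hR) ?_
    have h12 : pj 0 E - pj 0 (pj 0 E) = -(pj 0 (pj 0 E) - pj 0 E) := by abel
    rw [h12]
    exact Submodule.neg_mem _ h9'
  have hRm : R ∈ (Wd7 e : Submodule (ZMod 7) (Fn7 (7 ^ r) (7 ^ s))) := by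
    rw [hRe]
    exact Submodule.add_mem _ (hmono _ _ (by linarith) hR) (Submodule.sub_mem _ hE (hp 0 _ _ hE))
  obtain ⟨a', ha', ha''⟩ := hSta r s e R hRm hR0
  refine ⟨![-P', (5 : ZMod 7) • Q' - a', (3 : ZMod 7) • Q', 0, 0], ?_, ?_⟩
  · intro f
    fin_cases f
    · exact Submodule.neg_mem _ hP'm
    · exact Submodule.sub_mem _ (Submodule.smul_mem _ _ hQ'm) (hmono _ _ (by linarith) ha')
    · exact Submodule.smul_mem _ _ hQ'm
    · exact Submodule.zero_mem _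
    · exact Submodule.zero_mem _
  · have h14 : E - (DfK ![-P', (5 : ZMod 7) • Q' - a', (3 : ZMod 7) • Q', 0, 0] :
        Fn7 (7 ^ r) (7 ^ s)) = R - (a' - op7 6 (-1) 3 (-3) a') := by
      have h15 : (DfK ![-P', (5 : ZMod 7) • Q' - a', (3 : ZMod 7) • Q', 0, 0] :
          Fn7 (7 ^ r) (7 ^ s)) = DfK ![-P', (5 : ZMod 7) • Q', (3 : ZMod 7) • Q', 0, 0] +
            (a' - op7 6 (-1) 3 (-3) a') := by
        rw [DfK_op, DfK_op]
        have e1 : (![-P', (5 : ZMod 7) • Q', (3 : ZMod 7) • Q', 0, 0] :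
          Fin 5 → Fn7 (7 ^ r) (7 ^ s)) 1 = (5 : ZMod 7) • Q' := rfl
        have e1' : (![-P', (5 : ZMod 7) • Q' - a', (3 : ZMod 7) • Q', 0, 0] :
          Fin 5 → Fn7 (7 ^ r) (7 ^ s)) 1 = (5 : ZMod 7) • Q' - a' := rfl
        have e0 : (![-P', (5 : ZMod 7) • Q' - a', (3 : ZMod 7) • Q', 0, 0] :
          Fin 5 → Fn7 (7 ^ r) (7 ^ s)) 0 = (![-P', (5 : ZMod 7) • Q', (3 : ZMod 7) • Q', 0, 0] :
          Fin 5 → Fn7 (7 ^ r) (7 ^ s)) 0 := rfl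
        have e2 : (![-P', (5 : ZMod 7) • Q' - a', (3 : ZMod 7) • Q', 0, 0] :
          Fin 5 → Fn7 (7 ^ r) (7 ^ s)) 2 = (![-P', (5 : ZMod 7) • Q', (3 : ZMod 7) • Q', 0, 0] :
          Fin 5 → Fn7 (7 ^ r) (7 ^ s)) 2 := rfl
        have e3 : (![-P', (5 : ZMod 7) • Q' - a', (3 : ZMod 7) • Q', 0, 0] :
          Fin 5 → Fn7 (7 ^ r) (7 ^ s)) 3 = (![-P', (5 : ZMod 7) • Q', (3 : ZMod 7) • Q', 0, 0] :
          Fin 5 → Fn7 (7 ^ r) (7 ^ s)) 3 := rfl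
        have e4 : (![-P', (5 : ZMod 7) • Q' - a', (3 : ZMod 7) • Q', 0, 0] :
          Fin 5 → Fn7 (7 ^ r) (7 ^ s)) 4 = (![-P', (5 : ZMod 7) • Q', (3 : ZMod 7) • Q', 0, 0] :
          Fin 5 → Fn7 (7 ^ r) (7 ^ s)) 4 := rfl
        rw [e0, e2, e3, e4, e1', e1, map_sub (op7 6 (-1) 3 (-3))]
        abel
      rw [h15, ← hD, hRdef]
      abel
    rw [h14]
    exact ha''

private theorem main_Sur (hLow0 : S7Low0) (hNfa : S7Nfa) (hPj : S7Pj) (hBb : S7Bb) (hSta : TSta)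
    (hLwd : TLwd) (r s : ℕ) :
    ∀ (n : ℕ) (e : ℤ) (E : Fn7 (7 ^ r) (7 ^ s)), e < n → e < 7 ^ r + 7 ^ s - 2 → E ∈ Wd7 e →
    ∃ u : Fin 5 → Fn7 (7 ^ r) (7 ^ s), (∀ f, u f ∈ Wd7 (e + 1)) ∧
      (DfK u : Fn7 (7 ^ r) (7 ^ s)) = E := by
  have hL := hLow0 r s
  obtain ⟨_, _, _, _, hmono, _, _, _, _, _, _, _, _, hneg⟩ := hL
  intro n
  induction n with
  | zero =>
    intro e E he _ hE
    have h1 : E = 0 := hneg E (hmono e (-1) (by
      have : e < 0 := by exact_mod_cast he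
      omega) hE)
    refine ⟨fun _ => 0, fun _ => Submodule.zero_mem _, ?_⟩
    rw [DfK_op, h1, map_zero, map_zero, map_zero, map_zero, map_zero]
    simp
  | succ n ih =>
    intro e E he he2 hE
    obtain ⟨F, hF, hR⟩ := step_Sur hLow0 hNfa hPj hBb hSta hLwd r s e E he2 hE
    obtain ⟨F', hF', hR'⟩ := ih (e - 1) _ (by push_cast at he; linarith)
      (by linarith) hR
    have h6 : e - 1 + 1 = e := by ring
    rw [h6] at hF'
    refine ⟨fun f => F f + F' f, fun f => Submodule.add_mem _ (hF f)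
      (hmono _ _ (by linarith) (hF' f)), ?_⟩
    have h7 : (DfK (fun f => F f + F' f) : Fn7 (7 ^ r) (7 ^ s)) =
        (DfK F : Fn7 (7 ^ r) (7 ^ s)) + (DfK F' : Fn7 (7 ^ r) (7 ^ s)) := by
      rw [DfK_op, DfK_op, DfK_op, map_add, map_add, map_add, map_add, map_add]
      abel
    rw [h7, hR']
    abel

theorem hSur (ht : S7Trm) (hl : S7Low0) (hn : S7Nfa) (hp : S7Pj) (hb : S7Bb) (hs : TSta)
    (hw : TLwd) : TSur := by
  have _ := ht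
  intro r s e E he hE
  exact main_Sur hl hn hp hb hs hw r s (e + 1).toNat e E (by
    have := Int.self_le_toNat (e + 1)
    linarith) he hE

end Pool.Agent.Helper53.TK7
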